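import Pool.Agent.H48.SymDP.Irr.Field
import Pool.Agent.H88.SymDP.Sections

open Polynomial

namespace Pool.Agent.H95.SymN

open Pool.Agent.H48.SymDP

/-- The rational form of `dsc`. -/
noncomputable def DD (P : ℚ[X]) (s t : Fin 3 → ℚ[X]) : ℚ[X] :=
  s 0 * t 0 - 4 * P * (s 1 * t 1 + 3 * (s 2 * t 2))

/-- The rational form of `dt s t (brk P s t)`. -/
noncomputable def DT (P : ℚ[X]) (s t : Fin 3 → ℚ[X]) : ℚ[X] :=
  2 * ((s 1 * t 0 - s 0 * t 1) ^ 2 + 3 * (s 2 * t 0 - s 0 * t 2) ^ 2 -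
    12 * P * (s 2 * t 1 - s 1 * t 2) ^ 2)

lemma DD_sq_sub (P : ℚ[X]) (s t : Fin 3 → ℚ[X]) :
    DD P s t ^ 2 - DD P s s * DD P t t = 2 * P * DT P s t := by
  simp only [DD, DT]; ring

lemma coeff_sq_add {a b : ℚ[X]} {n : ℕ} (ha : a.natDegree ≤ n) (hb : b.natDegree ≤ n) :
    (a ^ 2 + 3 * b ^ 2).coeff (2 * n) = a.coeff n ^ 2 + 3 * b.coeff n ^ 2 := by
  have h1 : (a ^ 2).coeff (2 * n) = a.coeff n ^ 2 := by
    rw [sq, two_mul, coeff_mul_add_eq_of_natDegree_le ha ha, sq]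
  have h2 : (3 * b ^ 2 : ℚ[X]).coeff (2 * n) = 3 * b.coeff n ^ 2 := by
    rw [show (3 * b ^ 2 : ℚ[X]) = C 3 * b ^ 2 by rfl, coeff_C_mul, sq, two_mul,
      coeff_mul_add_eq_of_natDegree_le hb hb, sq]
  rw [coeff_add, h1, h2]

lemma coeff_pos {x y : ℚ} (h : x ≠ 0 ∨ y ≠ 0) : x ^ 2 + 3 * y ^ 2 ≠ 0 := by
  rcases h with h | h
  · positivity
  · positivity

lemma natDegree_sq_add {a b : ℚ[X]} {n : ℕ} (ha : a.natDegree ≤ n) (hb : b.natDegree ≤ n)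
    (h : a.coeff n ≠ 0 ∨ b.coeff n ≠ 0) : (a ^ 2 + 3 * b ^ 2).natDegree = 2 * n := by
  apply natDegree_eq_of_le_of_coeff_ne_zero
  · have h1 : (a ^ 2).natDegree ≤ 2 * n := natDegree_pow_le_of_le 2 ha
    have h2 : (3 * b ^ 2).natDegree ≤ 2 * n := by
      have := natDegree_pow_le_of_le 2 hb
      have h3 : (3 * b ^ 2 : ℚ[X]).natDegree ≤ (b ^ 2).natDegree := by
        rw [show (3 * b ^ 2 : ℚ[X]) = C 3 * b ^ 2 by rfl]
        exact natDegree_C_mul_le _ _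
      omega
    exact (natDegree_add_le_of_degree_le h1 h2)
  · rw [coeff_sq_add ha hb]
    exact coeff_pos h

lemma all_zero {P a b e : ℚ[X]} (hP : P.natDegree = 3)
    (h : a ^ 2 + 3 * b ^ 2 = 12 * P * e ^ 2) : a = 0 ∧ b = 0 ∧ e = 0 := by
  have hP0 : P ≠ 0 := by rintro rfl; simp at hP
  have hab : a = 0 ∧ b = 0 := by
    by_contra hcon
    set n := max a.natDegree b.natDegree with hn
    have hne : a.coeff n ≠ 0 ∨ b.coeff n ≠ 0 := by
      by_contra hc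
      push Not at hc
      obtain ⟨h1, h2⟩ := hc
      rcases le_total a.natDegree b.natDegree with hle | hle
      · rw [hn, max_eq_right hle] at h1 h2
        have hb : b = 0 := by
          by_contra hb
          exact (leadingCoeff_ne_zero.2 hb) h2
        rw [hb, natDegree_zero] at hle h1
        have ha : a = 0 := by
          rw [eq_C_of_natDegree_le_zero hle, h1, C_0]
        exact hcon ⟨ha, hb⟩
      · rw [hn, max_eq_left hle] at h1 h2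
        have ha : a = 0 := by
          by_contra ha
          exact (leadingCoeff_ne_zero.2 ha) h1
        rw [ha, natDegree_zero] at hle h2
        have hb : b = 0 := by
          rw [eq_C_of_natDegree_le_zero hle, h2, C_0]
        exact hcon ⟨ha, hb⟩
    have h1 := natDegree_sq_add (le_max_left _ _) (le_max_right _ _) hne
    rw [h] at h1
    by_cases he : e = 0
    · have h3 := coeff_sq_add (le_max_left a.natDegree b.natDegree)
        (le_max_right a.natDegree b.natDegree)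
      rw [h, he, ← hn] at h3
      simp only [ne_eq, OfNat.ofNat_ne_zero, not_false_eq_true, zero_pow, mul_zero,
        coeff_zero] at h3
      exact coeff_pos hne h3.symm
    · have h2 : (12 * P * e ^ 2).natDegree = 3 + 2 * e.natDegree := by
        rw [show (12 * P * e ^ 2 : ℚ[X]) = C 12 * (P * e ^ 2) by rw [mul_assoc]; rfl,
          natDegree_C_mul (by norm_num), natDegree_mul hP0 (pow_ne_zero 2 he), natDegree_pow, hP]
      omega
  obtain ⟨ha, hb⟩ := hab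
  refine ⟨ha, hb, ?_⟩
  rw [ha, hb] at h
  have h2 : (12 : ℚ[X]) * P * e ^ 2 = 0 := by rw [← h]; ring
  have h12 : (12 : ℚ[X]) ≠ 0 := by
    rw [show (12 : ℚ[X]) = C 12 by rfl]
    exact C_ne_zero.2 (by norm_num)
  rcases mul_eq_zero.1 h2 with h3 | h3
  · rcases mul_eq_zero.1 h3 with h4 | h4
    · exact absurd h4 h12
    · exact absurd h4 hP0
  · exact pow_eq_zero_iff (two_ne_zero) |>.1 h3

section general

variable {k : Type*} [Field k] [Algebra ℚ k] {θ : k} {κ₁ : ℚ}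

lemma dsc_rf (hθ : θ ^ 2 = -3) (s t : Fin 3 → ℚ[X]) :
    dsc (PK k κ₁) (rf θ s) (rf θ t) = (DD (PP κ₁) s t).map (algebraMap ℚ k) := by
  have h : (C θ : k[X]) ^ 2 = -3 := by rw [← C_pow, hθ, C_neg]; rfl
  simp only [dsc, rf, DD, PK, Matrix.cons_val_zero, Matrix.cons_val_one, Matrix.cons_val,
    Polynomial.map_sub, Polynomial.map_mul, Polynomial.map_add, Polynomial.map_ofNat]
  linear_combination (4 * ((PP κ₁).map (algebraMap ℚ k)) * ((s 2).map (algebraMap ℚ k)) *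
    ((t 2).map (algebraMap ℚ k))) * h

lemma dt_rf (hθ : θ ^ 2 = -3) (s t : Fin 3 → ℚ[X]) :
    dt (rf θ s) (rf θ t) (brk (PK k κ₁) (rf θ s) (rf θ t)) =
      (DT (PP κ₁) s t).map (algebraMap ℚ k) := by
  have h : (C θ : k[X]) ^ 2 = -3 := by rw [← C_pow, hθ, C_neg]; rfl
  simp only [dt, brk, rf, DT, PK, Matrix.cons_val_zero, Matrix.cons_val_one, Matrix.cons_val,
    Polynomial.map_sub, Polynomial.map_mul, Polynomial.map_add, Polynomial.map_ofNat,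
    Polynomial.map_pow]
  set P := (PP κ₁).map (algebraMap ℚ k)
  set s0 := (s 0).map (algebraMap ℚ k)
  set s1 := (s 1).map (algebraMap ℚ k)
  set s2 := (s 2).map (algebraMap ℚ k)
  set t0 := (t 0).map (algebraMap ℚ k)
  set t1 := (t 1).map (algebraMap ℚ k)
  set t2 := (t 2).map (algebraMap ℚ k)
  linear_combination (8 * P * (s2 * t1 - s1 * t2) ^ 2 - 2 * (s2 * t0 - s0 * t2) ^ 2) * h

/-- The sections that we consider. -/
def Good (θ : k) (κ₁ : ℚ) (Q : ℚ[X]) (lam : ℚ) (σ : k[X]) (r : Fin 3 → ℚ[X]) : Prop :=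
  InT (PK k κ₁) (C (algebraMap ℚ k lam)) (Q.map (algebraMap ℚ k)) σ (rf θ r) ∧
    (r 0).degree < ((Q.natDegree + 2 : ℕ) : WithBot ℕ) ∧
    (r 1).degree < (Q.natDegree : WithBot ℕ) ∧ (r 2).degree < (Q.natDegree : WithBot ℕ)

/-- Linear combinations. -/
noncomputable def comb (α β : ℚ) (s t : Fin 3 → ℚ[X]) : Fin 3 → ℚ[X] :=
  fun i => C α * s i + C β * t i

lemma rf_comb (α β : ℚ) (s t : Fin 3 → ℚ[X]) : rf θ (comb α β s t) =
    (C (algebraMap ℚ k α)) • rf θ s + (C (algebraMap ℚ k β)) • rf θ t := by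
  ext1 i
  fin_cases i <;> simp [rf, comb] <;> ring

variable {Q : ℚ[X]} {lam : ℚ} {σ : k[X]} {s t : Fin 3 → ℚ[X]}

lemma degree_comb_lt {a b : ℚ[X]} {d : WithBot ℕ} (ha : a.degree < d) (hb : b.degree < d)
    (α β : ℚ) : (C α * a + C β * b).degree < d := by
  refine lt_of_le_of_lt (degree_add_le _ _) (max_lt ?_ ?_)
  · refine lt_of_le_of_lt ?_ ha
    by_cases h : α = 0
    · rw [h, C_0, zero_mul, degree_zero]; exact bot_le
    · rw [degree_C_mul h]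
  · refine lt_of_le_of_lt ?_ hb
    by_cases h : β = 0
    · rw [h, C_0, zero_mul, degree_zero]; exact bot_le
    · rw [degree_C_mul h]

lemma Good.comb (hs : Good θ κ₁ Q lam σ s) (ht : Good θ κ₁ Q lam σ t) (α β : ℚ) :
    Good θ κ₁ Q lam σ (comb α β s t) := by
  obtain ⟨h1, h2, h3, h4⟩ := hs
  obtain ⟨h1', h2', h3', h4'⟩ := ht
  refine ⟨?_, degree_comb_lt h2 h2' α β, degree_comb_lt h3 h3' α β, degree_comb_lt h4 h4' α β⟩
  rw [rf_comb]
  exact (h1.smul _).add (h1'.smul _)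

lemma Good.Q_sq_dvd (hθ : θ ^ 2 = -3) (hs : Good θ κ₁ Q lam σ s) (ht : Good θ κ₁ Q lam σ t) :
    Q ^ 2 ∣ DD (PP κ₁) s t := by
  have h := hs.1.dsc_dvd ht.1
  rw [dsc_rf hθ, ← Polynomial.map_pow] at h
  exact (Polynomial.map_dvd_map' _).1 h

lemma Good.Q_four_dvd (hθ : θ ^ 2 = -3) (hQ : Q ≠ 0) (hPQ : IsCoprime (PP κ₁) Q)
    (hs : Good θ κ₁ Q lam σ s) (ht : Good θ κ₁ Q lam σ t) :
    Q ^ 4 ∣ DT (PP κ₁) s t := by
  have hPQ' : IsCoprime (PK k κ₁) (Q.map (algebraMap ℚ k)) := by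
    exact hPQ.map (mapRingHom (algebraMap ℚ k))
  have hQ' : Q.map (algebraMap ℚ k) ≠ 0 := by
    rwa [Ne, Polynomial.map_eq_zero]
  obtain ⟨r, hr, hrT⟩ := hs.1.exists_brk hQ' hPQ' ht.1
  have h := hs.1.dt_dvd hPQ' ht.1 hrT
  have h1 : dt (rf θ s) (rf θ t) (brk (PK k κ₁) (rf θ s) (rf θ t)) =
      Q.map (algebraMap ℚ k) * dt (rf θ s) (rf θ t) r := by
    rw [hr]; simp only [dt, Pi.smul_apply, smul_eq_mul]; ring
  rw [dt_rf hθ] at h1
  have h2 : (Q ^ 4).map (algebraMap ℚ k) ∣ (DT (PP κ₁) s t).map (algebraMap ℚ k) := by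
    rw [h1, Polynomial.map_pow, pow_succ, mul_comm]
    exact mul_dvd_mul_left _ h
  exact (Polynomial.map_dvd_map' _).1 h2


lemma natDegree_le_of_lt {a : ℚ[X]} {n : ℕ} (h : a.degree < ((n + 1 : ℕ) : WithBot ℕ)) :
    a.natDegree ≤ n := by
  by_cases h0 : a = 0
  · rw [h0]; simp
  · have := (natDegree_lt_iff_degree_lt h0).2 h
    omega

lemma Good.natDegree_DD (hs : Good θ κ₁ Q lam σ s) (ht : Good θ κ₁ Q lam σ t)
    (hκ : κ₁ ≠ 0) : (DD (PP κ₁) s t).natDegree ≤ 2 * Q.natDegree + 2 := by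
  obtain ⟨-, h2, h3, h4⟩ := hs
  obtain ⟨-, h2', h3', h4'⟩ := ht
  set q := Q.natDegree
  have e1 := natDegree_le_of_lt h2
  have e2 := natDegree_le_of_lt h2'
  have f1 : (s 0 * t 0).natDegree ≤ 2 * q + 2 :=
    natDegree_mul_le.trans (by omega)
  rcases Nat.eq_zero_or_pos q with hq | hq
  · rw [hq] at h3 h4
    have g1 : s 1 = 0 := by
      by_contra h
      exact absurd h3 (not_lt.2 (by simpa using zero_le_degree_iff.2 h))
    have g2 : s 2 = 0 := by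
      by_contra h
      exact absurd h4 (not_lt.2 (by simpa using zero_le_degree_iff.2 h))
    have : DD (PP κ₁) s t = s 0 * t 0 := by rw [DD, g1, g2]; ring
    rw [this]; exact f1
  · obtain ⟨r, hr⟩ : ∃ r, q = r + 1 := ⟨q - 1, by omega⟩
    rw [hr] at h3 h4 h3' h4'
    have g1 := natDegree_le_of_lt h3
    have g2 := natDegree_le_of_lt h4
    have g3 := natDegree_le_of_lt h3'
    have g4 := natDegree_le_of_lt h4'
    have k1 : (s 1 * t 1).natDegree ≤ 2 * r := natDegree_mul_le.trans (by omega)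
    have k2 : (3 * (s 2 * t 2)).natDegree ≤ 2 * r := by
      rw [show (3 * (s 2 * t 2) : ℚ[X]) = C 3 * (s 2 * t 2) by rfl]
      exact (natDegree_C_mul_le _ _).trans (natDegree_mul_le.trans (by omega))
    have k3 : (s 1 * t 1 + 3 * (s 2 * t 2)).natDegree ≤ 2 * r :=
      natDegree_add_le_of_degree_le k1 k2
    have k4 : (4 * PP κ₁ * (s 1 * t 1 + 3 * (s 2 * t 2))).natDegree ≤ 2 * q + 2 := by
      rw [show (4 * PP κ₁ * (s 1 * t 1 + 3 * (s 2 * t 2)) : ℚ[X]) =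
        C 4 * (PP κ₁ * (s 1 * t 1 + 3 * (s 2 * t 2))) by rw [mul_assoc]; rfl]
      refine (natDegree_C_mul_le _ _).trans (natDegree_mul_le.trans ?_)
      rw [natDegree_PP hκ]; omega
    exact (natDegree_sub_le_of_le f1 k4).trans (by simp)

lemma Good.natDegree_DT (hs : Good θ κ₁ Q lam σ s) (ht : Good θ κ₁ Q lam σ t)
    (hκ : κ₁ ≠ 0) : (DT (PP κ₁) s t).natDegree ≤ 4 * Q.natDegree := by
  obtain ⟨-, h2, h3, h4⟩ := hs
  obtain ⟨-, h2', h3', h4'⟩ := ht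
  set q := Q.natDegree
  have e1 := natDegree_le_of_lt h2
  have e2 := natDegree_le_of_lt h2'
  rcases Nat.eq_zero_or_pos q with hq | hq
  · rw [hq] at h3 h4 h3' h4'
    have g1 : s 1 = 0 := by
      by_contra h
      exact absurd h3 (not_lt.2 (by simpa using zero_le_degree_iff.2 h))
    have g2 : s 2 = 0 := by
      by_contra h
      exact absurd h4 (not_lt.2 (by simpa using zero_le_degree_iff.2 h))
    have g3 : t 1 = 0 := by
      by_contra h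
      exact absurd h3' (not_lt.2 (by simpa using zero_le_degree_iff.2 h))
    have g4 : t 2 = 0 := by
      by_contra h
      exact absurd h4' (not_lt.2 (by simpa using zero_le_degree_iff.2 h))
    have : DT (PP κ₁) s t = 0 := by rw [DT, g1, g2, g3, g4]; ring
    rw [this]; simp
  · obtain ⟨r, hr⟩ : ∃ r, q = r + 1 := ⟨q - 1, by omega⟩
    rw [hr] at h3 h4 h3' h4'
    have g1 := natDegree_le_of_lt h3
    have g2 := natDegree_le_of_lt h4
    have g3 := natDegree_le_of_lt h3'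
    have g4 := natDegree_le_of_lt h4'
    have k1 : (s 1 * t 0).natDegree ≤ 2 * q := natDegree_mul_le.trans (by omega)
    have k2 : (s 0 * t 1).natDegree ≤ 2 * q := natDegree_mul_le.trans (by omega)
    have k3 : (s 2 * t 0).natDegree ≤ 2 * q := natDegree_mul_le.trans (by omega)
    have k4 : (s 0 * t 2).natDegree ≤ 2 * q := natDegree_mul_le.trans (by omega)
    have k5 : (s 2 * t 1).natDegree ≤ 2 * r := natDegree_mul_le.trans (by omega)
    have k6 : (s 1 * t 2).natDegree ≤ 2 * r := natDegree_mul_le.trans (by omega)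
    have m1 : ((s 1 * t 0 - s 0 * t 1) ^ 2).natDegree ≤ 4 * q := by
      have := natDegree_pow_le_of_le 2 ((natDegree_sub_le_of_le k1 k2).trans (by simp :
        max (2 * q) (2 * q) ≤ 2 * q))
      omega
    have m2 : (3 * (s 2 * t 0 - s 0 * t 2) ^ 2).natDegree ≤ 4 * q := by
      have := natDegree_pow_le_of_le 2 ((natDegree_sub_le_of_le k3 k4).trans (by simp :
        max (2 * q) (2 * q) ≤ 2 * q))
      rw [show (3 * (s 2 * t 0 - s 0 * t 2) ^ 2 : ℚ[X]) =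
        C 3 * (s 2 * t 0 - s 0 * t 2) ^ 2 by rfl]
      exact (natDegree_C_mul_le _ _).trans (by omega)
    have m3 : (12 * PP κ₁ * (s 2 * t 1 - s 1 * t 2) ^ 2).natDegree ≤ 4 * q := by
      have := natDegree_pow_le_of_le 2 ((natDegree_sub_le_of_le k5 k6).trans (by simp :
        max (2 * r) (2 * r) ≤ 2 * r))
      rw [show (12 * PP κ₁ * (s 2 * t 1 - s 1 * t 2) ^ 2 : ℚ[X]) =
        C 12 * (PP κ₁ * (s 2 * t 1 - s 1 * t 2) ^ 2) by rw [mul_assoc]; rfl]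
      refine (natDegree_C_mul_le _ _).trans (natDegree_mul_le.trans ?_)
      rw [natDegree_PP hκ]; omega
    have m4 : ((s 1 * t 0 - s 0 * t 1) ^ 2 + 3 * (s 2 * t 0 - s 0 * t 2) ^ 2 -
        12 * PP κ₁ * (s 2 * t 1 - s 1 * t 2) ^ 2).natDegree ≤ 4 * q :=
      (natDegree_sub_le_of_le (natDegree_add_le_of_degree_le m1 m2) m3).trans (by simp)
    rw [DT]
    rw [show (2 * ((s 1 * t 0 - s 0 * t 1) ^ 2 + 3 * (s 2 * t 0 - s 0 * t 2) ^ 2 -
      12 * PP κ₁ * (s 2 * t 1 - s 1 * t 2) ^ 2) : ℚ[X]) = C 2 *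
      ((s 1 * t 0 - s 0 * t 1) ^ 2 + 3 * (s 2 * t 0 - s 0 * t 2) ^ 2 -
      12 * PP κ₁ * (s 2 * t 1 - s 1 * t 2) ^ 2) by rfl]
    exact (natDegree_C_mul_le _ _).trans m4

lemma exists_quot {Q D : ℚ[X]} {n m : ℕ} (hQ : Q ≠ 0) (h : Q ^ n ∣ D)
    (hd : D.natDegree ≤ n * Q.natDegree + m) : ∃ M : ℚ[X], D = Q ^ n * M ∧ M.natDegree ≤ m := by
  obtain ⟨M, hM⟩ := h
  refine ⟨M, hM, ?_⟩
  by_cases h0 : M = 0
  · rw [h0]; simp
  · rw [hM, natDegree_mul (pow_ne_zero n hQ) h0, natDegree_pow] at hd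
    omega

/-- The conclusion. -/
def Concl (k : Type*) [Field k] [Algebra ℚ k] (θ : k) (κ₁ : ℚ) (Q : ℚ[X]) (lam : ℚ)
    (σ : k[X]) : Prop :=
  ∃ (s' t' : Fin 3 → ℚ[X]) (Δ l₀ l₁ μ₀ μ₁ c d : ℚ), Δ ≠ 0 ∧ l₁ ≠ 0 ∧ c ≠ 0 ∧ c = -2 * μ₀ ∧
    Good θ κ₁ Q lam σ s' ∧ Good θ κ₁ Q lam σ t' ∧
    DT (PP κ₁) s' t' = C Δ * Q ^ 4 ∧
    DD (PP κ₁) s' s' = (Q * (C l₁ * X + C l₀)) ^ 2 ∧
    DD (PP κ₁) s' t' = Q ^ 2 * (C μ₁ * (C l₁ * X + C l₀) + C μ₀) ∧
    DD (PP κ₁) t' t' = Q ^ 2 * (C c * (C l₁ * X + C l₀) + C d)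

lemma core (hθ : θ ^ 2 = -3) (hκ : κ₁ ≠ 0) (hQ : Q ≠ 0) (hPQ : IsCoprime (PP κ₁) Q)
    (hs : Good θ κ₁ Q lam σ s) (ht : Good θ κ₁ Q lam σ t) (hDT : DT (PP κ₁) s t ≠ 0)
    (u v : ℚ[X]) (huv : u * PP κ₁ + v * Q = 1) (l : ℚ[X]) (hl : l.natDegree ≤ 1)
    (hvl : PP κ₁ ∣ s 0 * v - l) : Concl k θ κ₁ Q lam σ := by
  obtain ⟨A, hA, hAd⟩ := exists_quot hQ (hs.Q_sq_dvd hθ hs) (hs.natDegree_DD hs hκ)
  obtain ⟨M, hM, hMd⟩ := exists_quot hQ (hs.Q_sq_dvd hθ ht) (hs.natDegree_DD ht hκ)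
  obtain ⟨N, hN, hNd⟩ := exists_quot hQ (ht.Q_sq_dvd hθ ht) (ht.natDegree_DD ht hκ)
  obtain ⟨E, hE, hEd⟩ := exists_quot (m := 0) hQ (hs.Q_four_dvd hθ hQ hPQ ht)
    (hs.natDegree_DT ht hκ)
  obtain ⟨Δ, hΔ⟩ : ∃ Δ, E = C Δ := ⟨_, eq_C_of_natDegree_le_zero hEd⟩
  have hΔ0 : Δ ≠ 0 := by
    rintro rfl
    rw [hΔ, C_0, mul_zero] at hE
    exact hDT hE
  -- `A = l ^ 2`
  have hAl : A = l ^ 2 := by
    obtain ⟨w, hw⟩ := hvl
    have h1 : PP κ₁ ∣ A - l ^ 2 := by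
      have h2 : Q ^ 2 * A = s 0 * s 0 - 4 * PP κ₁ * (s 1 * s 1 + 3 * (s 2 * s 2)) := by
        rw [← hA, DD]
      refine ⟨A * (2 * u - u ^ 2 * PP κ₁) + (2 * l * w + PP κ₁ * w ^ 2) -
        4 * v ^ 2 * (s 1 * s 1 + 3 * (s 2 * s 2)), ?_⟩
      have h3 : v * Q = 1 - u * PP κ₁ := by linear_combination huv
      have h4 : s 0 * v = l + PP κ₁ * w := by linear_combination hw
      linear_combination v ^ 2 * h2 - A * (v * Q + 1 - u * PP κ₁) * h3 +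
        (s 0 * v + l + PP κ₁ * w) * h4
    have h5 : (A - l ^ 2).natDegree < (PP κ₁).natDegree := by
      rw [natDegree_PP hκ]
      have := natDegree_pow_le_of_le 2 hl
      have := natDegree_sub_le_of_le hAd this
      have h6 : max 2 (2 * 1) = 2 := rfl
      rw [h6] at this
      omega
    have h6 := eq_zero_of_dvd_of_natDegree_lt h1 h5
    linear_combination h6
  have hkey : M ^ 2 - l ^ 2 * N = 2 * PP κ₁ * C Δ := by
    have h1 := DD_sq_sub (PP κ₁) s t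
    rw [hA, hM, hN, hE, hAl, hΔ] at h1
    have h2 : Q ^ 4 * (M ^ 2 - l ^ 2 * N) = Q ^ 4 * (2 * PP κ₁ * C Δ) := by
      linear_combination h1
    exact mul_left_cancel₀ (pow_ne_zero 4 hQ) h2
  obtain ⟨l₁, l₀, hl'⟩ := exists_eq_X_add_C_of_natDegree_le_one hl
  obtain ⟨m₂, m₁, m₀, hM'⟩ : ∃ m₂ m₁ m₀, M = C m₂ * X ^ 2 + C m₁ * X + C m₀ :=
    ⟨_, _, _, eq_quadratic_of_degree_le_two (natDegree_le_iff_degree_le.1 hMd)⟩
  obtain ⟨n₂, n₁, n₀, hN'⟩ : ∃ n₂ n₁ n₀, N = C n₂ * X ^ 2 + C n₁ * X + C n₀ :=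
    ⟨_, _, _, eq_quadratic_of_degree_le_two (natDegree_le_iff_degree_le.1 hNd)⟩
  have hev : ∀ x : ℚ, (m₂ * x ^ 2 + m₁ * x + m₀) ^ 2 -
      (l₁ * x + l₀) ^ 2 * (n₂ * x ^ 2 + n₁ * x + n₀) = 2 * κ₁ * Δ * (x ^ 3 + 2) := by
    intro x
    have := congrArg (Polynomial.eval x) hkey
    rw [hM', hN', hl', PP] at this
    simp only [eval_sub, eval_pow, eval_add, eval_mul, eval_C, eval_X, eval_ofNat] at this
    linear_combination this
  have c4 : m₂ ^ 2 = l₁ ^ 2 * n₂ := by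
    linear_combination (hev 2 - 4 * hev 1 + 6 * hev 0 - 4 * hev (-1) + hev (-2)) / 24
  have c3 : 2 * m₂ * m₁ - (l₁ ^ 2 * n₁ + 2 * l₁ * l₀ * n₂) = 2 * κ₁ * Δ := by
    linear_combination (hev 2 - 2 * hev 1 + 2 * hev (-1) - hev (-2)) / 12
  have hl1 : l₁ ≠ 0 := by
    rintro rfl
    have h1 : m₂ = 0 := by
      have : m₂ ^ 2 = 0 := by rw [c4]; ring
      exact pow_eq_zero_iff (two_ne_zero) |>.1 this
    rw [h1] at c3
    have h2 : κ₁ * Δ = 0 := by linear_combination -c3 / 2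
    rcases mul_eq_zero.1 h2 with h | h
    · exact hκ h
    · exact hΔ0 h
  set e : ℚ := -m₂ / l₁ ^ 2 with he
  have hm2 : m₂ = -e * l₁ ^ 2 := by rw [he]; field_simp
  set m₁' := m₁ + 2 * e * l₁ * l₀ with hm1'
  set m₀' := m₀ + e * l₀ ^ 2 with hm0'
  set n₁' := n₁ + 2 * e * m₁ + 2 * e ^ 2 * l₁ * l₀ with hn1'
  set n₀' := n₀ + 2 * e * m₀ + e ^ 2 * l₀ ^ 2 with hn0'
  have hn2 : n₂ = e ^ 2 * l₁ ^ 2 := by
    have h1 : l₁ ^ 2 * n₂ = l₁ ^ 2 * (e ^ 2 * l₁ ^ 2) := by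
      rw [← c4, hm2]; ring
    exact mul_left_cancel₀ (pow_ne_zero 2 hl1) h1
  have hev' : ∀ x : ℚ, (m₁' * x + m₀') ^ 2 - (l₁ * x + l₀) ^ 2 * (n₁' * x + n₀') =
      2 * κ₁ * Δ * (x ^ 3 + 2) := by
    intro x
    rw [← hev x, hm1', hm0', hn1', hn0', hn2, hm2]
    ring
  have c3' : -l₁ ^ 2 * n₁' = 2 * κ₁ * Δ := by
    linear_combination (hev' 2 - 2 * hev' 1 + 2 * hev' (-1) - hev' (-2)) / 12
  have hn1 : n₁' ≠ 0 := by
    intro h
    rw [h] at c3'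
    have h2 : κ₁ * Δ = 0 := by linear_combination -c3' / 2
    rcases mul_eq_zero.1 h2 with h | h
    · exact hκ h
    · exact hΔ0 h
  set μ₀ := m₀' - m₁' * l₀ / l₁ with hμ0
  have hμ : μ₀ ≠ 0 := by
    intro h
    have h1 := hev' (-l₀ / l₁)
    have h2 : m₁' * (-l₀ / l₁) + m₀' = 0 := by rw [← h, hμ0]; ring
    have h3 : l₁ * (-l₀ / l₁) + l₀ = 0 := by field_simp; ring
    rw [h2, h3] at h1
    have h4 : κ₁ * Δ * ((-l₀ / l₁) ^ 3 + 2) = 0 := by linear_combination -h1 / 2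
    rcases mul_eq_zero.1 h4 with h | h
    · rcases mul_eq_zero.1 h with h | h
      · exact hκ h
      · exact hΔ0 h
    · exact no_cbrt (-l₀ / l₁) (by linear_combination h)
  set ν₁ := n₁' / l₁ with hν1
  have hν : ν₁ ≠ 0 := div_ne_zero hn1 hl1
  set ν₀ := n₀' - n₁' * l₀ / l₁ with hν0
  set f := -2 * μ₀ / ν₁ with hf
  have hf0 : f ≠ 0 := div_ne_zero (mul_ne_zero (by norm_num) hμ) hν
  have hfν : f * ν₁ = -2 * μ₀ := by rw [hf]; field_simp
  have hDst : DD (PP κ₁) s (SymN.comb (f * e) f s t) = C f * (DD (PP κ₁) s t + C e * DD (PP κ₁) s s) := by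
    simp only [DD, SymN.comb, C_mul]; ring
  have hDtt : DD (PP κ₁) (SymN.comb (f * e) f s t) (SymN.comb (f * e) f s t) = C (f ^ 2) *
      (DD (PP κ₁) t t + 2 * C e * DD (PP κ₁) s t + C e ^ 2 * DD (PP κ₁) s s) := by
    simp only [DD, SymN.comb, C_mul, C_pow]; ring
  have hDTst : DT (PP κ₁) s (SymN.comb (f * e) f s t) = C (f ^ 2) * DT (PP κ₁) s t := by
    simp only [DT, SymN.comb, C_mul, C_pow]; ring
  refine ⟨s, SymN.comb (f * e) f s t, f ^ 2 * Δ, l₀, l₁, f * μ₀, f * (m₁' / l₁), f ^ 2 * ν₁,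
    f ^ 2 * ν₀, mul_ne_zero (pow_ne_zero 2 hf0) hΔ0, hl1, mul_ne_zero (pow_ne_zero 2 hf0) hν,
    ?_, hs, hs.comb ht _ _, ?_, ?_, ?_, ?_⟩
  · linear_combination f * hfν
  · rw [hDTst, hE, hΔ, C_mul]; ring
  · rw [hA, hAl, hl']; ring
  · rw [hDst, hM, hA, hAl, hM', hl']
    have h1 : f * (m₁' / l₁) * l₁ = f * m₁' := by field_simp
    have h2 : f * (m₁' / l₁) * l₀ + f * μ₀ = f * m₀' := by rw [hμ0]; field_simp; ring
    have h3 : (C (f * (m₁' / l₁)) * (C l₁ * X + C l₀) + C (f * μ₀) : ℚ[X]) =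
        C (f * m₁') * X + C (f * m₀') := by
      rw [← h1, ← h2]; simp only [C_mul, C_add]; ring
    rw [h3, hm1', hm0', hm2]
    simp only [C_mul, C_add, C_neg, C_pow, C_ofNat]
    ring
  · rw [hDtt, hN, hM, hA, hAl, hM', hN', hl']
    have h1 : f ^ 2 * ν₁ * l₁ = f ^ 2 * n₁' := by rw [hν1]; field_simp
    have h2 : f ^ 2 * ν₁ * l₀ + f ^ 2 * ν₀ = f ^ 2 * n₀' := by rw [hν0, hν1]; field_simp; ring
    have h3 : (C (f ^ 2 * ν₁) * (C l₁ * X + C l₀) + C (f ^ 2 * ν₀) : ℚ[X]) =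
        C (f ^ 2 * n₁') * X + C (f ^ 2 * n₀') := by
      rw [← h1, ← h2]; simp only [C_mul, C_add]; ring
    rw [h3, hn1', hn0', hn2, hm2]
    simp only [C_mul, C_add, C_neg, C_pow, C_ofNat]
    ring

lemma DT_comb (P : ℚ[X]) (α β : ℚ) (s t : Fin 3 → ℚ[X]) :
    DT P (SymN.comb α β s t) s = C (β ^ 2) * DT P s t := by
  simp only [DT, SymN.comb, C_pow]; ring

theorem normalize_gen (hθ : θ ^ 2 = -3) (hκ : κ₁ ≠ 0) (hQ : Q ≠ 0)
    (hPQ : IsCoprime (PP κ₁) Q) (hs : Good θ κ₁ Q lam σ s) (ht : Good θ κ₁ Q lam σ t)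
    (hnp : crs (rf θ s) (rf θ t) ≠ 0) : Concl k θ κ₁ Q lam σ := by
  have hDT : DT (PP κ₁) s t ≠ 0 := by
    intro h0
    have h1 : (s 1 * t 0 - s 0 * t 1) ^ 2 + 3 * (s 2 * t 0 - s 0 * t 2) ^ 2 =
        12 * PP κ₁ * (s 2 * t 1 - s 1 * t 2) ^ 2 := by
      have h2 : (2 : ℚ[X]) ≠ 0 := two_ne_zero
      rw [DT] at h0
      have := (mul_eq_zero.1 h0).resolve_left h2
      linear_combination this
    obtain ⟨ha, hb, he⟩ := all_zero (natDegree_PP hκ) h1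
    apply hnp
    have ha' := congrArg (Polynomial.map (algebraMap ℚ k)) ha
    have hb' := congrArg (Polynomial.map (algebraMap ℚ k)) hb
    have he' := congrArg (Polynomial.map (algebraMap ℚ k)) he
    simp only [Polynomial.map_sub, Polynomial.map_mul, Polynomial.map_zero] at ha' hb' he'
    ext1 i
    fin_cases i
    · simp only [crs, rf, Matrix.cons_val_zero, Matrix.cons_val_one, Matrix.cons_val,
        Fin.zero_eta, Pi.zero_apply]
      linear_combination 2 * C θ * he'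
    · simp only [crs, rf, Matrix.cons_val_zero, Matrix.cons_val_one, Matrix.cons_val,
        Fin.mk_one, Pi.zero_apply]
      linear_combination ha' - C θ * hb'
    · simp only [crs, rf, Matrix.cons_val_zero, Matrix.cons_val_one, Matrix.cons_val,
        Fin.reduceFinMk, Pi.zero_apply]
      linear_combination -ha' - C θ * hb'
  obtain ⟨u, v, huv⟩ := hPQ
  have hP0 := PP_ne hκ
  have hmod : ∀ a : ℚ[X], ∃ l : ℚ[X], l.natDegree ≤ 2 ∧ PP κ₁ ∣ a - l := by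
    intro a
    refine ⟨a % PP κ₁, ?_, ?_⟩
    · have := natDegree_mod_lt a (q := PP κ₁) (by rw [natDegree_PP hκ]; norm_num)
      rw [natDegree_PP hκ] at this
      omega
    · exact ⟨a / PP κ₁, by linear_combination -(EuclideanDomain.div_add_mod a (PP κ₁))⟩
  obtain ⟨ls, hls, hls'⟩ := hmod (s 0 * v)
  obtain ⟨lt, hlt, hlt'⟩ := hmod (t 0 * v)
  by_cases h2 : ls.coeff 2 = 0
  · refine core hθ hκ hQ ⟨u, v, huv⟩ hs ht hDT u v huv ls ?_ hls'
    rw [natDegree_le_iff_coeff_eq_zero]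
    intro n hn
    rcases Nat.lt_or_ge 2 n with h | h
    · exact coeff_eq_zero_of_natDegree_lt (lt_of_le_of_lt hls h)
    · have : n = 2 := by omega
      rw [this]; exact h2
  · refine core hθ hκ hQ ⟨u, v, huv⟩ (hs.comb ht (lt.coeff 2) (-ls.coeff 2)) hs ?_ u v huv
      (C (lt.coeff 2) * ls + C (-ls.coeff 2) * lt) ?_ ?_
    · rw [DT_comb]
      exact mul_ne_zero (C_ne_zero.2 (pow_ne_zero 2 (neg_ne_zero.2 h2))) hDT
    · rw [natDegree_le_iff_coeff_eq_zero]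
      intro n hn
      rw [coeff_add, coeff_C_mul, coeff_C_mul]
      rcases Nat.lt_or_ge 2 n with h | h
      · rw [coeff_eq_zero_of_natDegree_lt (lt_of_le_of_lt hls h),
          coeff_eq_zero_of_natDegree_lt (lt_of_le_of_lt hlt h)]; ring
      · have : n = 2 := by omega
        rw [this]; ring
    · obtain ⟨w1, hw1⟩ := hls'
      obtain ⟨w2, hw2⟩ := hlt'
      refine ⟨C (lt.coeff 2) * w1 + C (-ls.coeff 2) * w2, ?_⟩
      simp only [SymN.comb]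
      linear_combination C (lt.coeff 2) * hw1 + C (-ls.coeff 2) * hw2

end general

end Pool.Agent.H95.SymN

namespace Pool.Agent.H48.SymDP

open Pool.Agent.H95.SymN in
/-- JOB N1a (normalization of the two sections). -/
theorem normalize (θ : AlgebraicClosure ℚ) (hθ : θ ^ 2 = -3) (κ₁ : ℚ) (hκ : κ₁ ≠ 0)
    (Q : ℚ[X]) (hQ : Q ≠ 0) (hPQ : IsCoprime (PP κ₁) Q) (lam : ℚ)
    (σ : (AlgebraicClosure ℚ)[X]) (s t : Fin 3 → ℚ[X])
    (hs : InT (PK (AlgebraicClosure ℚ) κ₁) (C (algebraMap ℚ _ lam))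
      (Q.map (algebraMap ℚ _)) σ (rf θ s) ∧ (s 0).degree < ((Q.natDegree + 2 : ℕ) : WithBot ℕ) ∧
      (s 1).degree < (Q.natDegree : WithBot ℕ) ∧ (s 2).degree < (Q.natDegree : WithBot ℕ))
    (ht : InT (PK (AlgebraicClosure ℚ) κ₁) (C (algebraMap ℚ _ lam))
      (Q.map (algebraMap ℚ _)) σ (rf θ t) ∧ (t 0).degree < ((Q.natDegree + 2 : ℕ) : WithBot ℕ) ∧
      (t 1).degree < (Q.natDegree : WithBot ℕ) ∧ (t 2).degree < (Q.natDegree : WithBot ℕ))
    (hnp : crs (rf θ s) (rf θ t) ≠ 0) :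
    ∃ (s' t' : Fin 3 → ℚ[X]) (Δ l₀ l₁ μ₀ μ₁ c d : ℚ), Δ ≠ 0 ∧ l₁ ≠ 0 ∧ c ≠ 0 ∧ c = -2 * μ₀ ∧
      (∀ r ∈ ({s', t'} : Set (Fin 3 → ℚ[X])),
        InT (PK (AlgebraicClosure ℚ) κ₁) (C (algebraMap ℚ _ lam))
          (Q.map (algebraMap ℚ _)) σ (rf θ r) ∧
        (r 0).degree < ((Q.natDegree + 2 : ℕ) : WithBot ℕ) ∧
        (r 1).degree < (Q.natDegree : WithBot ℕ) ∧ (r 2).degree < (Q.natDegree : WithBot ℕ)) ∧
      dt (rf θ s') (rf θ t') (brk (PK (AlgebraicClosure ℚ) κ₁) (rf θ s') (rf θ t')) =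
        C (algebraMap ℚ _ Δ) * (Q.map (algebraMap ℚ _)) ^ 4 ∧
      dsc (PK (AlgebraicClosure ℚ) κ₁) (rf θ s') (rf θ s') =
        ((Q * (C l₁ * X + C l₀)) ^ 2).map (algebraMap ℚ _) ∧
      dsc (PK (AlgebraicClosure ℚ) κ₁) (rf θ s') (rf θ t') =
        (Q ^ 2 * (C μ₁ * (C l₁ * X + C l₀) + C μ₀)).map (algebraMap ℚ _) ∧
      dsc (PK (AlgebraicClosure ℚ) κ₁) (rf θ t') (rf θ t') =
        (Q ^ 2 * (C c * (C l₁ * X + C l₀) + C d)).map (algebraMap ℚ _) := by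
  obtain ⟨s', t', Δ, l₀, l₁, μ₀, μ₁, c, d, h1, h2, h3, h4, h5, h6, h7, h8, h9, h10⟩ :=
    normalize_gen hθ hκ hQ hPQ hs ht hnp
  refine ⟨s', t', Δ, l₀, l₁, μ₀, μ₁, c, d, h1, h2, h3, h4, ?_, ?_, ?_, ?_, ?_⟩
  · rintro r (rfl | rfl)
    · exact h5
    · exact h6
  · rw [dt_rf hθ, h7, Polynomial.map_mul, Polynomial.map_C, Polynomial.map_pow]
  · rw [dsc_rf hθ, h8]
  · rw [dsc_rf hθ, h9]
  · rw [dsc_rf hθ, h10]

end Pool.Agent.H48.SymDP
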