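import Pool.Agent.H48.SymDP.Irr.Field
import Pool.Agent.H88.SymDP.Sections

open Polynomial

namespace Pool.Agent.H95.SymK

open Pool.Agent.H48.SymDP

/-- The embedding of `ℚ[X₁]` into `ℚ̄(u)`. -/
noncomputable def embQ1 : MvPolynomial (Fin 1) ℚ →+* RatFunc (AlgebraicClosure ℚ) :=
  (MvPolynomial.aeval (fun _ => RatFunc.X) :
    MvPolynomial (Fin 1) ℚ →ₐ[ℚ] RatFunc (AlgebraicClosure ℚ))

lemma embQ1_injective : Function.Injective embQ1 := by
  have h : Transcendental ℚ (RatFunc.X : RatFunc (AlgebraicClosure ℚ)) := by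
    rintro ⟨p, hp, h0⟩
    have h1 : algebraMap (AlgebraicClosure ℚ)[X] (RatFunc (AlgebraicClosure ℚ))
        (p.map (algebraMap ℚ (AlgebraicClosure ℚ))) = 0 := by
      have e1 : algebraMap (AlgebraicClosure ℚ)[X] (RatFunc (AlgebraicClosure ℚ))
          (p.map (algebraMap ℚ (AlgebraicClosure ℚ))) =
          p.eval₂ ((algebraMap (AlgebraicClosure ℚ)[X] (RatFunc (AlgebraicClosure ℚ))).comp
            (C.comp (algebraMap ℚ (AlgebraicClosure ℚ)))) RatFunc.X := by
        rw [Polynomial.map, Polynomial.hom_eval₂, RatFunc.algebraMap_X]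
      rw [e1, ← h0, Polynomial.aeval_def]
      congr 1
      exact Subsingleton.elim _ _
    have h3 := (map_eq_zero_iff _ (RatFunc.algebraMap_injective _)).1 h1
    exact hp ((Polynomial.map_eq_zero _).1 h3)
  have h' : AlgebraicIndependent ℚ (fun _ : Fin 1 => (RatFunc.X : RatFunc (AlgebraicClosure ℚ))) :=
    (algebraicIndependent_unique_type_iff).2 h
  exact h'

/-- The embedding of `ℚ[X₀, X₁]` into `ℚ̄(u)(v)` sending `X₀` to `v` and `X₁` to `u`. -/
noncomputable def embQ2 : MvPolynomial (Fin 2) ℚ →+* RatFunc (RatFunc (AlgebraicClosure ℚ)) :=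
  (algebraMap (RatFunc (AlgebraicClosure ℚ))[X] (RatFunc (RatFunc (AlgebraicClosure ℚ)))).comp
    ((mapRingHom embQ1).comp
      (MvPolynomial.finSuccEquiv ℚ 1 : MvPolynomial (Fin 2) ℚ →+* (MvPolynomial (Fin 1) ℚ)[X]))

lemma embQ2_injective : Function.Injective embQ2 := by
  unfold embQ2
  rw [RingHom.coe_comp, RingHom.coe_comp]
  refine (RatFunc.algebraMap_injective _).comp (Function.Injective.comp ?_ ?_)
  · exact Polynomial.map_injective _ embQ1_injective
  · exact (MvPolynomial.finSuccEquiv ℚ 1).injective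

lemma embQ2_X0 : embQ2 (MvPolynomial.X 0) = RatFunc.X := by
  have h : (MvPolynomial.finSuccEquiv ℚ 1) (MvPolynomial.X 0) = Polynomial.X :=
    MvPolynomial.finSuccEquiv_X_zero
  simp only [embQ2, RingHom.comp_apply]
  erw [h]
  simp

lemma embQ2_X1 : embQ2 (MvPolynomial.X 1) =
    RatFunc.C (RatFunc.X : RatFunc (AlgebraicClosure ℚ)) := by
  have h : (MvPolynomial.finSuccEquiv ℚ 1) (MvPolynomial.X 1) = Polynomial.C (MvPolynomial.X 0) :=
    MvPolynomial.finSuccEquiv_X_succ (j := 0)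
  simp only [embQ2, RingHom.comp_apply]
  erw [h]
  simp [embQ1]

/-- The embedding of the fraction field. -/
noncomputable def embQ : FractionRing (MvPolynomial (Fin 2) ℚ) →+*
    RatFunc (RatFunc (AlgebraicClosure ℚ)) :=
  IsFractionRing.lift embQ2_injective

lemma embQ_algebraMap (p : MvPolynomial (Fin 2) ℚ) :
    embQ (algebraMap _ (FractionRing (MvPolynomial (Fin 2) ℚ)) p) = embQ2 p :=
  IsFractionRing.lift_algebraMap _ _

lemma gL_embQ (g : AlgebraicClosure ℚ ≃ₐ[ℚ] AlgebraicClosure ℚ)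
    (a : FractionRing (MvPolynomial (Fin 2) ℚ)) : gL g (embQ a) = embQ a := by
  have h : (gL g).comp embQ = embQ := by
    apply IsLocalization.ringHom_ext (nonZeroDivisors (MvPolynomial (Fin 2) ℚ))
    apply MvPolynomial.ringHom_ext
    · intro r
      have h1 : (((gL g).comp embQ).comp (algebraMap (MvPolynomial (Fin 2) ℚ) _)).comp
          MvPolynomial.C = (embQ.comp (algebraMap (MvPolynomial (Fin 2) ℚ) _)).comp
          MvPolynomial.C := Subsingleton.elim _ _
      exact congrArg (fun f : ℚ →+* _ => f r) h1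
    · intro i
      simp only [RingHom.comp_apply]
      rw [embQ_algebraMap]
      fin_cases i
      · show gL g (embQ2 (MvPolynomial.X 0)) = embQ2 (MvPolynomial.X 0)
        rw [embQ2_X0, gL_v]
      · show gL g (embQ2 (MvPolynomial.X 1)) = embQ2 (MvPolynomial.X 1)
        rw [embQ2_X1, gL_u]
  exact congrArg (fun f : _ →+* _ => f a) h

lemma adjoin_uv : IntermediateField.adjoin (AlgebraicClosure ℚ)
    {(RatFunc.C (RatFunc.X : RatFunc (AlgebraicClosure ℚ)) :
      RatFunc (RatFunc (AlgebraicClosure ℚ))), RatFunc.X} = ⊤ := by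
  rw [eq_top_iff]
  rintro a -
  set F := IntermediateField.adjoin (AlgebraicClosure ℚ)
    {(RatFunc.C (RatFunc.X : RatFunc (AlgebraicClosure ℚ)) :
      RatFunc (RatFunc (AlgebraicClosure ℚ))), RatFunc.X} with hF
  have hu : (RatFunc.C (RatFunc.X : RatFunc (AlgebraicClosure ℚ)) :
      RatFunc (RatFunc (AlgebraicClosure ℚ))) ∈ F :=
    IntermediateField.subset_adjoin _ _ (by simp)
  have hv : (RatFunc.X : RatFunc (RatFunc (AlgebraicClosure ℚ))) ∈ F :=
    IntermediateField.subset_adjoin _ _ (by simp)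
  have hk : ∀ c : AlgebraicClosure ℚ, (RatFunc.C (RatFunc.C c) : RatFunc (RatFunc (AlgebraicClosure ℚ))) ∈ F := by
    intro c
    have := F.algebraMap_mem c
    rwa [IsScalarTower.algebraMap_apply (AlgebraicClosure ℚ) (RatFunc (AlgebraicClosure ℚ))
      (RatFunc (RatFunc (AlgebraicClosure ℚ))) c, RatFunc.algebraMap_eq_C,
      RatFunc.algebraMap_eq_C] at this
  have h1 : ∀ p : (AlgebraicClosure ℚ)[X], (RatFunc.C (algebraMap _ (RatFunc (AlgebraicClosure ℚ)) p) :
      RatFunc (RatFunc (AlgebraicClosure ℚ))) ∈ F := by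
    intro p
    induction p using Polynomial.induction_on' with
    | add p q hp hq => rw [map_add, map_add]; exact F.add_mem hp hq
    | monomial n c =>
      rw [← C_mul_X_pow_eq_monomial, map_mul, map_pow, RatFunc.algebraMap_C, RatFunc.algebraMap_X,
        map_mul, map_pow]
      exact F.mul_mem (hk c) (F.pow_mem hu n)
  have h2 : ∀ b : RatFunc (AlgebraicClosure ℚ), (RatFunc.C b :
      RatFunc (RatFunc (AlgebraicClosure ℚ))) ∈ F := by
    intro b
    rw [← RatFunc.num_div_denom b, map_div₀]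
    exact F.div_mem (h1 _) (h1 _)
  have h3 : ∀ p : (RatFunc (AlgebraicClosure ℚ))[X], (algebraMap _
      (RatFunc (RatFunc (AlgebraicClosure ℚ))) p) ∈ F := by
    intro p
    induction p using Polynomial.induction_on' with
    | add p q hp hq => rw [map_add]; exact F.add_mem hp hq
    | monomial n c =>
      rw [← C_mul_X_pow_eq_monomial, map_mul, map_pow, RatFunc.algebraMap_C, RatFunc.algebraMap_X]
      exact F.mul_mem (h2 c) (F.pow_mem hv n)
  rw [← RatFunc.num_div_denom a]
  exact F.div_mem (h3 _) (h3 _)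


lemma aux_ne {M : Type*} [Field M] [CharZero M] (φ : M →+* M) (T Y Z : M) (hT : T ^ 2 = -3)
    (hφT : φ T = -T) (hY : φ Y = Y) (hZ : φ Z = Z) (h0 : Y + T * Z = 0) : Y = 0 ∧ Z = 0 := by
  have h1 := congrArg φ h0
  rw [map_add, map_mul, hY, hZ, hφT, map_zero] at h1
  have hT0 : T ≠ 0 := by
    intro h
    rw [h] at hT
    norm_num at hT
  have h2 : (2 : M) * Y = 0 := by linear_combination h0 + h1
  have hy : Y = 0 := by
    rcases mul_eq_zero.1 h2 with h | h
    · exact absurd h two_ne_zero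
    · exact h
  refine ⟨hy, ?_⟩
  rw [hy] at h0
  have h3 : T * Z = 0 := by linear_combination h0
  rcases mul_eq_zero.1 h3 with h | h
  · exact absurd h hT0
  · exact h

lemma aux_rel {K M : Type*} [Field K] [Field M] (ι : K →+* M) {x y z : K}
    (hrel : y ^ 2 + 3 * z ^ 2 = x ^ 3 + 2) : ι y ^ 2 + 3 * ι z ^ 2 = ι x ^ 3 + 2 := by
  have := congrArg ι hrel
  have h3 : ι 3 = 3 := map_ofNat ι 3
  have h2 : ι 2 = 2 := map_ofNat ι 2
  rw [map_add, map_mul, map_pow, map_pow, map_add, map_pow, h3, h2] at this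
  exact this

lemma aux_gen {k K M : Type*} [Field k] [Field K] [Algebra ℚ K] [Field M] [Algebra k M]
    [CharZero M] (ι : K →+* M) (x y z : K) (hrel : y ^ 2 + 3 * z ^ 2 = x ^ 3 + 2)
    (hgen : IntermediateField.adjoin ℚ {x, y, z} = ⊤) (θ : k)
    (hθ : (algebraMap k M θ) ^ 2 = -3)
    (hw : ι y + algebraMap k M θ * ι z ≠ 0) (a : K) :
    ι a ∈ IntermediateField.adjoin k {ι x, ι y + algebraMap k M θ * ι z} := by
  have hrel' : ι y ^ 2 + 3 * ι z ^ 2 = ι x ^ 3 + 2 := aux_rel ι hrel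
  set T := algebraMap k M θ with hT
  have hprod : (ι y + T * ι z) * (ι y - T * ι z) = ι x ^ 3 + 2 := by
    linear_combination hrel' - (ι z) ^ 2 * hθ
  set F := IntermediateField.adjoin k {ι x, ι y + T * ι z} with hF
  have hxF : ι x ∈ F := IntermediateField.subset_adjoin _ _ (by simp)
  have hwF : ι y + T * ι z ∈ F := IntermediateField.subset_adjoin _ _ (by simp)
  have hwbF : ι y - T * ι z ∈ F := by
    have : ι y - T * ι z = (ι x ^ 3 + 2) / (ι y + T * ι z) := by
      rw [eq_div_iff hw, mul_comm]; exact hprod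
    rw [this]
    exact F.div_mem (F.add_mem (pow_mem hxF 3) (ofNat_mem F 2)) hwF
  have hyF : ι y ∈ F := by
    have : ι y = ((ι y + T * ι z) + (ι y - T * ι z)) / 2 := by ring
    rw [this]
    exact F.div_mem (F.add_mem hwF hwbF) (ofNat_mem F 2)
  have hTF : T ∈ F := F.algebraMap_mem θ
  have hT0 : T ≠ 0 := by
    intro h
    rw [h] at hθ
    norm_num at hθ
  have hzF : ι z ∈ F := by
    have : ι z = ((ι y + T * ι z) - ι y) / T := by field_simp; ring
    rw [this]
    exact F.div_mem (F.sub_mem hwF hyF) hTF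
  have hclos : ∀ r : ℚ, ι (algebraMap ℚ K r) ∈ F := by
    intro r
    have h1 : ι (algebraMap ℚ K r) = ((r : ℚ) : M) := by
      rw [eq_ratCast, map_ratCast]
    rw [h1, Rat.cast_def]
    exact F.div_mem (intCast_mem F _) (natCast_mem F _)
  have hle : IntermediateField.adjoin ℚ {x, y, z} ≤
      { F.toSubfield.comap ι with algebraMap_mem' := hclos } := by
    rw [IntermediateField.adjoin_le_iff]
    intro a ha
    simp only [Set.mem_insert_iff, Set.mem_singleton_iff] at ha
    rcases ha with rfl | rfl | rfl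
    · exact hxF
    · exact hyF
    · exact hzF
  have : a ∈ IntermediateField.adjoin ℚ {x, y, z} := by rw [hgen]; trivial
  exact hle this

lemma aux_alg {K : Type} [Field K] [Algebra ℚ K]
    (e : K ≃ₐ[ℚ] FractionRing (MvPolynomial (Fin 2) ℚ)) (x y z : K)
    (hrel : y ^ 2 + 3 * z ^ 2 = x ^ 3 + 2)
    (hgen : IntermediateField.adjoin ℚ {x, y, z} = ⊤) (hy : y = 0) (hz : z = 0) : False := by
  have hx : x ^ 3 + 2 = 0 := by
    rw [← hrel, hy, hz]; ring
  have hxi : IsIntegral ℚ x := ⟨X ^ 3 + 2, by monicity!, by simp [hx]⟩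
  have halg := IntermediateField.isAlgebraic_adjoin (K := ℚ) (S := {x, y, z}) (L := K) (by
    intro a ha
    simp only [Set.mem_insert_iff, Set.mem_singleton_iff] at ha
    rcases ha with rfl | rfl | rfl
    · exact hxi
    · rw [hy]; exact isIntegral_zero
    · rw [hz]; exact isIntegral_zero)
  set t := e.symm (algebraMap (MvPolynomial (Fin 2) ℚ) _ (MvPolynomial.X 0)) with ht
  have hmem : t ∈ IntermediateField.adjoin ℚ {x, y, z} := by rw [hgen]; trivial
  have h5 := halg.isAlgebraic (⟨t, hmem⟩ : IntermediateField.adjoin ℚ {x, y, z})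
  have h6 : IsAlgebraic ℚ t := by
    exact (IntermediateField.isAlgebraic_iff (K := ℚ) (L := K)
      (S := IntermediateField.adjoin ℚ {x, y, z}) (x := ⟨t, hmem⟩)).1 h5
  have h7 : IsAlgebraic ℚ (e t) := by
    obtain ⟨p, hp, h0⟩ := h6
    refine ⟨p, hp, ?_⟩
    have := congrArg e h0
    rw [map_zero] at this
    rw [← this]
    exact Polynomial.aeval_algHom_apply e.toAlgHom t p
  rw [ht, e.apply_symm_apply] at h7
  have h8 : IsAlgebraic ℚ (MvPolynomial.X 0 : MvPolynomial (Fin 2) ℚ) :=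
    (isAlgebraic_algebraMap_iff (IsFractionRing.injective (MvPolynomial (Fin 2) ℚ)
      (FractionRing (MvPolynomial (Fin 2) ℚ)))).1 h7
  exact MvPolynomial.transcendental_X ℚ 0 h8

end Pool.Agent.H95.SymK

namespace Pool.Agent.H48.SymDP

open Pool.Agent.H95.SymK in
/-- JOB K (from the field `K` to a conic structure). -/
theorem exists_conic {K : Type} [Field K] [Algebra ℚ K]
    (e : K ≃ₐ[ℚ] FractionRing (MvPolynomial (Fin 2) ℚ)) (x y z : K)
    (hrel : y ^ 2 + 3 * z ^ 2 = x ^ 3 + 2)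
    (hgen : IntermediateField.adjoin ℚ {x, y, z} = ⊤) (θ : AlgebraicClosure ℚ)
    (hθ : θ ^ 2 = -3) : ∃ x' y' z', Conic θ 1 x' y' z' := by
  let ι : K →+* RatFunc (RatFunc (AlgebraicClosure ℚ)) := embQ.comp (e : K →+* _)
  have hfix : ∀ g a, gL g (ι a) = ι a := fun g a => gL_embQ g _
  have hι : Function.Injective ι := ι.injective
  have hTθ : (algebraMap (AlgebraicClosure ℚ) (RatFunc (RatFunc (AlgebraicClosure ℚ))) θ) ^ 2 = -3 := by
    rw [← map_pow, hθ, map_neg, map_ofNat]
  have hcz : CharZero (RatFunc (RatFunc (AlgebraicClosure ℚ))) :=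
    charZero_of_injective_algebraMap
      (FaithfulSMul.algebraMap_injective (AlgebraicClosure ℚ) (RatFunc (RatFunc (AlgebraicClosure ℚ))))
  have hrel' : ι y ^ 2 + 3 * ι z ^ 2 = ι x ^ 3 + 2 := aux_rel ι hrel
  have hw : ι y + algebraMap (AlgebraicClosure ℚ) _ θ * ι z ≠ 0 := by
    intro h0
    obtain ⟨x₀, hx₀⟩ : ∃ x₀ : AlgebraicClosure ℚ, x₀ ^ 3 = -2 :=
      IsAlgClosed.exists_pow_nat_eq _ (by norm_num)
    obtain ⟨g, hg, -⟩ := exists_flip hθ hx₀
    obtain ⟨h1, h2⟩ := aux_ne (gL g) (algebraMap (AlgebraicClosure ℚ) _ θ) (ι y) (ι z) hTθ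
      (by rw [gL_algebraMap, hg, map_neg]) (hfix g y) (hfix g z) h0
    exact aux_alg e x y z hrel hgen (hι (by rw [h1, map_zero])) (hι (by rw [h2, map_zero]))
  have hall := aux_gen (k := AlgebraicClosure ℚ) ι x y z hrel hgen θ hTθ hw
  refine ⟨ι x, ι y, ι z, hθ, one_ne_zero, fun g => hfix g x, fun g => hfix g y,
    fun g => hfix g z, ?_, ?_⟩
  · rw [hrel', map_one, map_one, one_mul]
  · rw [eq_top_iff, ← adjoin_uv, IntermediateField.adjoin_le_iff]
    intro a ha
    simp only [Set.mem_insert_iff, Set.mem_singleton_iff] at ha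
    rcases ha with rfl | rfl
    · have := hall (e.symm (algebraMap (MvPolynomial (Fin 2) ℚ) _ (MvPolynomial.X 1)))
      have h2 : ι (e.symm (algebraMap (MvPolynomial (Fin 2) ℚ) _ (MvPolynomial.X 1))) =
          embQ (e (e.symm (algebraMap (MvPolynomial (Fin 2) ℚ) _ (MvPolynomial.X 1)))) := rfl
      rw [h2, e.apply_symm_apply, embQ_algebraMap, embQ2_X1] at this
      exact this
    · have := hall (e.symm (algebraMap (MvPolynomial (Fin 2) ℚ) _ (MvPolynomial.X 0)))
      have h2 : ι (e.symm (algebraMap (MvPolynomial (Fin 2) ℚ) _ (MvPolynomial.X 0))) =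
          embQ (e (e.symm (algebraMap (MvPolynomial (Fin 2) ℚ) _ (MvPolynomial.X 0)))) := rfl
      rw [h2, e.apply_symm_apply, embQ_algebraMap, embQ2_X0] at this
      exact this

end Pool.Agent.H48.SymDP
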